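import Pool.Agent.Helper95.LN.Stmts

/-!
# Row PT2
-/

set_option autoImplicit false

namespace Pool.Agent.Helper30.LN

open MeasureTheory Filter Pool.Agent.Helper95.PW Pool.Agent.Helper95.LN

theorem pt2_nr_eq (y : R3) : nr y = ‖(WithLp.toLp 2 y : EuclideanSpace ℝ (Fin 3))‖ := by
  rw [EuclideanSpace.norm_eq, nr]
  simp [Fin.sum_univ_three, Real.norm_eq_abs, sq_abs]

theorem pt2_nr_add (x y : R3) : nr (x + y) ≤ nr x + nr y := by
  rw [pt2_nr_eq, pt2_nr_eq, pt2_nr_eq, WithLp.toLp_add]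
  exact norm_add_le _ _

theorem pt2_nr_neg (y : R3) : nr (-y) = nr y := by
  rw [pt2_nr_eq, pt2_nr_eq, WithLp.toLp_neg, norm_neg]

theorem pt2_nr_nonneg (y : R3) : 0 ≤ nr y := Real.sqrt_nonneg _

theorem pt2_nr_comm (x y : R3) : nr (x - y) = nr (y - x) := by
  rw [← pt2_nr_neg, neg_sub]

theorem pt2_abs_le (y : R3) (i : Fin 3) : |y i| ≤ nr y := by
  rw [nr]
  apply Real.abs_le_sqrt
  fin_cases i <;> simp <;> nlinarith [sq_nonneg (y 0), sq_nonneg (y 1), sq_nonneg (y 2)]

theorem pt2_norm_le (y : R3) : ‖y‖ ≤ nr y := by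
  rw [pi_norm_le_iff_of_nonneg (pt2_nr_nonneg y)]
  intro i
  rw [Real.norm_eq_abs]
  exact pt2_abs_le y i

theorem pt2_int (hC : ST_PHC) (a : ℝ) (ha : 0 < a) (X0 : R3) :
    Integrable (fun y : R3 => et a (y - X0)) ∧ ∫ y, et a (y - X0) = kap := by
  obtain ⟨-, -, -, h⟩ := hC
  obtain ⟨hs, hn, hz, -, -, hi⟩ := h a ha
  have hc : HasCompactSupport (et a) := by
    apply HasCompactSupport.of_support_subset_isCompact (isCompact_closedBall (0 : R3) a)
    intro y hy
    rw [Metric.mem_closedBall, dist_zero_right]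
    by_contra hlt
    push Not at hlt
    exact hy (hz y (hlt.le.trans (pt2_norm_le y)))
  have h1 : Integrable (et a) := hs.continuous.integrable_of_hasCompactSupport hc
  refine ⟨h1.comp_sub_right X0, ?_⟩
  rw [integral_sub_right_eq_self (fun y => et a y) X0, hi]

theorem pt2_far (hT : ST_PT1) (hC : ST_PHC) (a a' : ℝ) (X0 Y0 : R3) (ha : 0 < a) (ha' : 0 < a')
    (hd : 3 * (a + a') ≤ nr (X0 - Y0)) :
    ∫ x, ∫ y, et a (x - X0) * et a' (y - Y0) / nr (x - y) = kap ^ 2 / nr (X0 - Y0) := by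
  have hz := (hC.2.2.2 a ha).2.2.1
  have h1 : ∀ x : R3, ∫ y, et a (x - X0) * et a' (y - Y0) / nr (x - y) =
      kap * (et a (x - X0) / nr (x - Y0)) := by
    intro x
    by_cases hx : a ≤ nr (x - X0)
    · rw [hz _ hx]
      simp
    · push Not at hx
      have h2 : 2 * a' ≤ nr (x - Y0) := by
        have h3 := pt2_nr_add (X0 - x) (x - Y0)
        rw [sub_add_sub_cancel, pt2_nr_comm X0 x] at h3
        linarith
      have h4 := hT a' x Y0 ha' h2
      have h5 : ∀ y : R3, et a (x - X0) * et a' (y - Y0) / nr (x - y) =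
          et a (x - X0) * (et a' (y - Y0) / nr (y - x)) := by
        intro y
        rw [pt2_nr_comm x y, mul_div_assoc]
      simp_rw [h5]
      rw [integral_const_mul, h4]
      ring
  simp_rw [h1]
  rw [integral_const_mul]
  have h6 : 2 * a ≤ nr (Y0 - X0) := by
    rw [pt2_nr_comm]
    linarith
  rw [hT a Y0 X0 ha h6, pt2_nr_comm Y0 X0]
  ring

/-- general bound: `1 / nr ≤ K` on the supports -/
theorem pt2_near (hC : ST_PHC) (a a' K : ℝ) (X0 Y0 : R3) (ha : 0 < a) (ha' : 0 < a')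
    (h : ∀ x y : R3, et a (x - X0) ≠ 0 → et a' (y - Y0) ≠ 0 → 1 / nr (x - y) ≤ K) :
    ∫ x, ∫ y, et a (x - X0) * et a' (y - Y0) / nr (x - y) ≤ kap ^ 2 * K := by
  have hn := (hC.2.2.2 a ha).2.1
  have hn' := (hC.2.2.2 a' ha').2.1
  obtain ⟨hi, hv⟩ := pt2_int hC a ha X0
  obtain ⟨hi', hv'⟩ := pt2_int hC a' ha' Y0
  have hp : ∀ x y : R3, 0 ≤ et a (x - X0) * et a' (y - Y0) / nr (x - y) := fun x y =>
    div_nonneg (mul_nonneg (hn _) (hn' _)) (pt2_nr_nonneg _)
  have h1 : ∀ x : R3, ∫ y, et a (x - X0) * et a' (y - Y0) / nr (x - y) ≤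
      (K * kap) * et a (x - X0) := by
    intro x
    have h2 : ∫ y, et a (x - X0) * et a' (y - Y0) / nr (x - y) ≤
        ∫ y, (K * et a (x - X0)) * et a' (y - Y0) := by
      apply integral_mono_of_nonneg
      · exact Eventually.of_forall fun y => hp x y
      · exact hi'.const_mul _
      · refine Eventually.of_forall fun y => ?_
        show et a (x - X0) * et a' (y - Y0) / nr (x - y) ≤ (K * et a (x - X0)) * et a' (y - Y0)
        by_cases h3 : et a (x - X0) = 0
        · rw [h3]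
          simp
        by_cases h4 : et a' (y - Y0) = 0
        · rw [h4]
          simp
        have h5 := mul_le_mul_of_nonneg_left (h x y h3 h4) (mul_nonneg (hn (x - X0)) (hn' (y - Y0)))
        rw [mul_one_div] at h5
        linarith
    rw [integral_const_mul, hv'] at h2
    linarith
  have h6 : ∫ x, ∫ y, et a (x - X0) * et a' (y - Y0) / nr (x - y) ≤
      ∫ x, (K * kap) * et a (x - X0) := by
    apply integral_mono_of_nonneg
    · exact Eventually.of_forall fun x => integral_nonneg fun y => hp x y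
    · exact hi.const_mul _
    · exact Eventually.of_forall fun x => h1 x
  rw [integral_const_mul, hv] at h6
  linarith

theorem PT2 (h1 : ST_PT1) (h2 : ST_PHC) : ST_PT2 := by
  intro a a' X0 Y0 ha ha'
  refine ⟨fun hd => pt2_far h1 h2 a a' X0 Y0 ha ha' hd, fun hs => ?_⟩
  obtain ⟨-, -, hz, hz2, -, -⟩ := h2.2.2.2 a ha
  obtain ⟨-, -, hz', -, -, -⟩ := h2.2.2.2 a' ha'
  have key : ∀ x y : R3, et a (x - X0) ≠ 0 → et a' (y - X0) ≠ 0 → 1 / nr (x - y) ≤ 4 / a := by
    intro x y hx hy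
    have e1 : a / 2 < nr (x - X0) := by
      by_contra hc
      push Not at hc
      exact hx (hz2 _ hc)
    have e2 : nr (y - X0) < a' := by
      by_contra hc
      push Not at hc
      exact hy (hz' _ hc)
    have e3 := pt2_nr_add (x - y) (y - X0)
    rw [sub_add_sub_cancel] at e3
    have e4 : a / 4 ≤ nr (x - y) := by linarith
    have e5 : 0 < nr (x - y) := by linarith
    rw [div_le_div_iff₀ e5 ha]
    linarith
  constructor
  · exact pt2_near h2 a a' (4 / a) X0 X0 ha ha' key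
  · apply pt2_near h2 a' a (4 / a) X0 X0 ha' ha
    intro x y hx hy
    rw [pt2_nr_comm]
    exact key y x hy hx

end Pool.Agent.Helper30.LN
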